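import Pool.Agent.Lib.MP_aae0ca_gt.Tree

/-! # Topological groups and cardinals of uncountable cofinality (MP_aae0ca_gt, Q1) -/

open Cardinal hiding univ
open Set Topology

universe u

namespace Pool.Agent.Results.MP_aae0ca_gt.GroupsBelowAlephOmegaOne

open Pool.Agent.CoDiag

/-- Let `G` be a Hausdorff topological group whose co-diagonal is discretely Lindelöf.
If every singular cardinal `μ ≤ 𝔠` of uncountable cofinality has the covering property
`CoveredBy μ` (there are at most `𝔠` subsets of `μ` of size less than `μ` such that every subset of
`μ` of size `cof μ` meets one of them in `cof μ` many points), then `G` has at most continuum many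
points. -/
theorem result {G : Type u} [Group G] [TopologicalSpace G] [IsTopologicalGroup G] [T2Space G]
    (h : DiscretelyLindelof (CoDiagonal G))
    (hcov : ∀ μ : Cardinal.{u}, μ ≤ 𝔠 → ℵ₀ < μ.ord.cof → μ.ord.cof < μ → CoveredBy μ) :
    #G ≤ 𝔠 :=
  card_le_of_covered h hcov

end Pool.Agent.Results.MP_aae0ca_gt.GroupsBelowAlephOmegaOne
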