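import Pool.Agent.Lib.MP_aae0ca_gt.Small

/-! # The size of topological groups with a discretely Lindelöf co-diagonal
(MP_aae0ca_gt, Q1) -/

open Cardinal hiding univ
open Set Topology

universe u

namespace Pool.Agent.Results.MP_aae0ca_gt.GroupsPowerBound

open Pool.Agent.CoDiag

/-- A Hausdorff topological group whose co-diagonal is discretely Lindelöf has at most
`2 ^< 𝔠` points. -/
theorem result {G : Type u} [Group G] [TopologicalSpace G] [IsTopologicalGroup G] [T2Space G]
    (h : DiscretelyLindelof (CoDiagonal G)) : #G ≤ 2 ^< 𝔠 :=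
  (card_group_le h).1

end Pool.Agent.Results.MP_aae0ca_gt.GroupsPowerBound
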