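import Pool.Agent.Lib.MP_aae0ca_gt.Split

/-! # Separable spaces with a discretely Lindelöf co-diagonal (MP_aae0ca_gt, Q1) -/

open Cardinal hiding univ
open Set Topology Filter

universe u

namespace Pool.Agent.Results.MP_aae0ca_gt.SeparableSpaces

open Pool.Agent.CoDiag

/-- Let `X` be a Hausdorff space whose co-diagonal is discretely Lindelöf.
If the co-diagonal has a cover by at most `𝔠` boxes, or `X` has a dense subset `Q` with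
`2 ^ #Q ≤ 𝔠` (for example if `X` is separable), or `X × X` has tightness at most `𝔠`, then
`#X ≤ 2 ^ ν` for some `ν < 𝔠` of countable cofinality, so that `#X ≤ 𝔠` if `𝔠 < ℵ_ω`. -/
theorem result {X : Type u} [TopologicalSpace X] [T2Space X]
    (h : DiscretelyLindelof (CoDiagonal X))
    (hyp : (∃ 𝒰 : Set (Set (CoDiagonal X)), (∀ B ∈ 𝒰, IsBox B) ∧ ⋃₀ 𝒰 = Set.univ ∧ #𝒰 ≤ 𝔠) ∨
      (∃ Q : Set X, Dense Q ∧ (2 : Cardinal.{u}) ^ #Q ≤ 𝔠) ∨ TightnessLE (X × X) 𝔠) :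
    (∃ ν : Cardinal.{u}, ν < 𝔠 ∧ ν.ord.cof ≤ ℵ₀ ∧ #X ≤ 2 ^ ν) ∧
      (𝔠 < (ℵ_ Ordinal.omega0 : Cardinal.{u}) → #X ≤ 𝔠) := by
  have hbox : ∃ 𝒰 : Set (Set (CoDiagonal X)), (∀ B ∈ 𝒰, IsBox B) ∧ ⋃₀ 𝒰 = Set.univ ∧
      #𝒰 ≤ 𝔠 := by
    rcases hyp with h1 | ⟨Q, hd, h1⟩ | h1
    · exact h1
    · exact exists_boxes_of_dense Q hd h1
    · exact exists_boxes_of_tightness h h1
  obtain ⟨𝒰, h1, h2, h3⟩ := hbox
  exact ⟨exists_bound_of_boxes h 𝒰 h1 h2 h3, (of_boxes h 𝒰 h1 h2 h3).2⟩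

end Pool.Agent.Results.MP_aae0ca_gt.SeparableSpaces
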