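import Pool.Agent.Lib.MP_aae0ca_gt.Small

/-! # Topological groups with a discretely Lindelöf co-diagonal (MP_aae0ca_gt, Q1) -/

open Cardinal hiding univ
open Set Topology

universe u

namespace Pool.Agent.Results.MP_aae0ca_gt.TopologicalGroups

open Pool.Agent.CoDiag

/-- Let `G` be a Hausdorff topological group whose co-diagonal is discretely Lindelöf.
The closure of the union of at most `ℵ_ω` discrete subspaces has at most continuum many points. -/
theorem result {G : Type u} [Group G] [TopologicalSpace G] [IsTopologicalGroup G] [T2Space G]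
    (h : DiscretelyLindelof (CoDiagonal G)) (𝒟 : Set (Set G))
    (h𝒟 : ∀ D ∈ 𝒟, DiscreteTopology D) (hc : #𝒟 ≤ ℵ_ Ordinal.omega0) :
    #(closure (⋃₀ 𝒟)) ≤ 𝔠 :=
  mk_closure_sUnion_le h 𝒟 (fun D hD => ⟨h𝒟 D hD⟩) hc

end Pool.Agent.Results.MP_aae0ca_gt.TopologicalGroups
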